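import Pool.Agent.Helper63.ML.Defs2
import Pool.Agent.Helper59.Pack.Planar

/-!
Block MQ-HEX (by helper68; adaptation of the lattice part of `fary` in
`Pool/Agent/Helper59/Pack/Planar.lean`): the lattice of a rotated hexagon.
-/

set_option autoImplicit false
namespace Pool.Agent.Helper63.ML
open Complex Metric MeasureTheory
open scoped ComplexConjugate ENNReal
open Pool.Agent.Helper59.Pack

/-- the rotated functional -/
private noncomputable def hexN (ε : ℝ) (a b c z : P2) : ℝ :=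
  area2 z a b + ε * (area2 z b c - area2 z c a)

private theorem hexN_str {Q : Set P2} {a b c : P2} {A ε W : ℝ} (hA : area2 c a b = A)
    (hA0 : 0 < A) (h : ∀ x ∈ Q, ∀ y ∈ Q, hexN ε a b c x - hexN ε a b c y ≤ W) :
    ∀ z ∈ interior Q, ∀ w ∈ interior Q, hexN ε a b c z - hexN ε a b c w < W := by
  intro z hz w hw
  have hw' := interior_subset hw
  have key := lt_of_interior (Q := Q) (g := hexN ε a b c)
    (d := (1 / (2 * A)) • ((2 : ℝ) • c - a - b)) (C := W + hexN ε a b c w) (x := z) ?_ ?_ hz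
  · linarith
  · intro x r
    have e : hexN ε a b c (x + r • (1 / (2 * A)) • ((2 : ℝ) • c - a - b)) =
        hexN ε a b c x + r * (1 / (2 * A)) * (2 * area2 c a b) := by
      simp only [hexN, area2, det2, Pi.sub_apply, Pi.add_apply, Pi.smul_apply, smul_eq_mul]
      ring
    rw [e, hA]
    have : A ≠ 0 := hA0.ne'
    field_simp
  · intro x hx
    have := h x hx w hw'
    linarith

private theorem hexN_disp (ε : ℝ) (a b c x y : P2) :
    hexN ε a b c x - hexN ε a b c y =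
      det2 (x - y) (a - b) + ε * (det2 (x - y) (b - c) - det2 (x - y) (c - a)) := by
  simp only [hexN, area2, det2, Pi.sub_apply]; ring

theorem hex_lattice {Q : Set P2} {p₀ p₁ p₂ : P2} {A : ℝ}
    (hA : area2 p₀ p₁ p₂ = A) (hA0 : 0 < A) (ε : ℝ) {W₀ W₁ W₂ : ℝ}
    (h0 : ∀ x ∈ Q, ∀ y ∈ Q, (area2 x p₁ p₂ + ε * (area2 x p₂ p₀ - area2 x p₀ p₁)) -
      (area2 y p₁ p₂ + ε * (area2 y p₂ p₀ - area2 y p₀ p₁)) ≤ W₀)
    (h1 : ∀ x ∈ Q, ∀ y ∈ Q, (area2 x p₂ p₀ + ε * (area2 x p₀ p₁ - area2 x p₁ p₂)) -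
      (area2 y p₂ p₀ + ε * (area2 y p₀ p₁ - area2 y p₁ p₂)) ≤ W₁)
    (h2 : ∀ x ∈ Q, ∀ y ∈ Q, (area2 x p₀ p₁ + ε * (area2 x p₁ p₂ - area2 x p₂ p₀)) -
      (area2 y p₀ p₁ + ε * (area2 y p₁ p₂ - area2 y p₂ p₀)) ≤ W₂)
    (w0 : A ≤ W₀ ∧ W₀ ≤ 2 * A) (w1 : A ≤ W₁ ∧ W₁ ≤ 2 * A) (w2 : A ≤ W₂ ∧ W₂ ≤ 2 * A) :
    ∃ t₁ t₂ : P2, 0 < det2 t₁ t₂ ∧
      det2 t₁ t₂ ≤ (W₀ + W₁ + W₂) ^ 2 / (12 * A * (1 + 3 * ε ^ 2)) ∧
      ∀ m n : ℤ, (m ≠ 0 ∨ n ≠ 0) → ∀ x ∈ interior Q, ∀ y ∈ interior Q,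
        x - y ≠ (m : ℝ) • t₁ + (n : ℝ) • t₂ := by
  obtain ⟨w0, w0'⟩ := w0
  obtain ⟨w1, w1'⟩ := w1
  obtain ⟨w2, w2'⟩ := w2
  have hA1 : area2 p₁ p₂ p₀ = A := by rw [area2_cyc]; exact hA
  have hA2 : area2 p₂ p₀ p₁ = A := by rw [← area2_cyc]; exact hA
  have hAne : A ≠ 0 := hA0.ne'
  set c : ℝ := 1 + 3 * ε ^ 2 with hc
  have hc0 : 0 < c := by positivity
  have hcne : c ≠ 0 := hc0.ne'
  set E₀ := (W₁ + W₂ - W₀) / 2 with hE₀
  set E₁ := (W₀ + W₂ - W₁) / 2 with hE₁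
  set E₂ := (W₀ + W₁ - W₂) / 2 with hE₂
  have E₀0 : 0 ≤ E₀ := by rw [hE₀]; linarith
  have E₁0 : 0 ≤ E₁ := by rw [hE₁]; linarith
  have E₂0 : 0 ≤ E₂ := by rw [hE₂]; linarith
  have e12 : E₁ + E₂ = W₀ := by rw [hE₁, hE₂]; ring
  have e02 : E₀ + E₂ = W₁ := by rw [hE₀, hE₂]; ring
  have e01 : E₀ + E₁ = W₂ := by rw [hE₀, hE₁]; ring
  obtain ⟨d, hd⟩ : ∃ d : ℝ, d = 1 / (A * c) := ⟨_, rfl⟩
  set t₁ : P2 := ((-(E₁ + E₂) - ε * (E₂ - E₁)) * d) • p₀ +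
    ((E₂ - ε * (E₁ + (E₁ + E₂))) * d) • p₁ +
    ((E₁ - ε * (-(E₁ + E₂) - E₂)) * d) • p₂ with ht₁
  set t₂ : P2 := ((E₂ - ε * (-(E₂ + E₀) - E₀)) * d) • p₀ +
    ((-(E₂ + E₀) - ε * (E₀ - E₂)) * d) • p₁ +
    ((E₀ - ε * (E₂ + (E₂ + E₀))) * d) • p₂ with ht₂
  have hdet : det2 t₁ t₂ = (E₀ * E₁ + E₀ * E₂ + E₁ * E₂) / (A * c) := by
    have e : det2 t₁ t₂ = (E₀ * E₁ + E₀ * E₂ + E₁ * E₂) * c * d ^ 2 *
        area2 p₀ p₁ p₂ := by
      simp only [ht₁, ht₂, hc, det2, area2, Pi.sub_apply, Pi.add_apply, Pi.smul_apply,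
        smul_eq_mul]
      ring
    rw [e, hA, hd]
    field_simp
  have hpos : 0 < E₀ * E₁ + E₀ * E₂ + E₁ * E₂ := by
    rcases E₀0.lt_or_eq with h1 | h1
    · have : 0 < E₀ * (E₁ + E₂) := mul_pos h1 (by linarith)
      have h2 : 0 ≤ E₁ * E₂ := mul_nonneg E₁0 E₂0
      linarith
    · rw [← h1] at e02 e01 ⊢
      have : 0 < E₁ * E₂ := mul_pos (by linarith) (by linarith)
      linarith
  refine ⟨t₁, t₂, ?_, ?_, ?_⟩
  · rw [hdet]
    exact div_pos hpos (mul_pos hA0 hc0)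
  · rw [hdet, div_le_div_iff₀ (mul_pos hA0 hc0) (by positivity)]
    have h5 : 12 * (E₀ * E₁ + E₀ * E₂ + E₁ * E₂) ≤ (W₀ + W₁ + W₂) ^ 2 := by
      rw [← e12, ← e02, ← e01]
      nlinarith [sq_nonneg (E₀ - E₁), sq_nonneg (E₀ - E₂), sq_nonneg (E₁ - E₂)]
    have h6 := mul_le_mul_of_nonneg_right h5 (mul_pos hA0 hc0).le
    linarith
  · intro m n hmn x hx y hy hxy
    have f₀ : hexN ε p₁ p₂ p₀ x - hexN ε p₁ p₂ p₀ y = -(m * (E₁ + E₂) - n * E₂) := by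
      rw [hexN_disp, hxy]
      have e : det2 ((m : ℝ) • t₁ + (n : ℝ) • t₂) (p₁ - p₂) +
          ε * (det2 ((m : ℝ) • t₁ + (n : ℝ) • t₂) (p₂ - p₀) -
            det2 ((m : ℝ) • t₁ + (n : ℝ) • t₂) (p₀ - p₁)) =
          -(m * (E₁ + E₂) - n * E₂) * c * d * area2 p₀ p₁ p₂ := by
        simp only [ht₁, ht₂, hc, det2, area2, Pi.sub_apply, Pi.add_apply, Pi.smul_apply,
          smul_eq_mul]
        ring
      rw [e, hA, hd]
      field_simp
    have f₁ : hexN ε p₂ p₀ p₁ x - hexN ε p₂ p₀ p₁ y = m * E₂ - n * (E₂ + E₀) := by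
      rw [hexN_disp, hxy]
      have e : det2 ((m : ℝ) • t₁ + (n : ℝ) • t₂) (p₂ - p₀) +
          ε * (det2 ((m : ℝ) • t₁ + (n : ℝ) • t₂) (p₀ - p₁) -
            det2 ((m : ℝ) • t₁ + (n : ℝ) • t₂) (p₁ - p₂)) =
          (m * E₂ - n * (E₂ + E₀)) * c * d * area2 p₀ p₁ p₂ := by
        simp only [ht₁, ht₂, hc, det2, area2, Pi.sub_apply, Pi.add_apply, Pi.smul_apply,
          smul_eq_mul]
        ring
      rw [e, hA, hd]
      field_simp
    have f₂ : hexN ε p₀ p₁ p₂ x - hexN ε p₀ p₁ p₂ y = m * E₁ + n * E₀ := by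
      rw [hexN_disp, hxy]
      have e : det2 ((m : ℝ) • t₁ + (n : ℝ) • t₂) (p₀ - p₁) +
          ε * (det2 ((m : ℝ) • t₁ + (n : ℝ) • t₂) (p₁ - p₂) -
            det2 ((m : ℝ) • t₁ + (n : ℝ) • t₂) (p₂ - p₀)) =
          (m * E₁ + n * E₀) * c * d * area2 p₀ p₁ p₂ := by
        simp only [ht₁, ht₂, hc, det2, area2, Pi.sub_apply, Pi.add_apply, Pi.smul_apply,
          smul_eq_mul]
        ring
      rw [e, hA, hd]
      field_simp
    have B₀ := hexN_str (ε := ε) (W := W₀) hA hA0 h0 x hx y hy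
    have B₀' := hexN_str (ε := ε) (W := W₀) hA hA0 h0 y hy x hx
    have B₁ := hexN_str (ε := ε) (W := W₁) hA1 hA0 h1 x hx y hy
    have B₁' := hexN_str (ε := ε) (W := W₁) hA1 hA0 h1 y hy x hx
    have B₂ := hexN_str (ε := ε) (W := W₂) hA2 hA0 h2 x hx y hy
    have B₂' := hexN_str (ε := ε) (W := W₂) hA2 hA0 h2 y hy x hx
    rw [show hexN ε p₁ p₂ p₀ y - hexN ε p₁ p₂ p₀ x = m * (E₁ + E₂) - n * E₂ by linarith] at B₀'
    rw [show hexN ε p₂ p₀ p₁ y - hexN ε p₂ p₀ p₁ x = -(m * E₂ - n * (E₂ + E₀)) by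
      linarith] at B₁'
    rw [show hexN ε p₀ p₁ p₂ y - hexN ε p₀ p₁ p₂ x = -(m * E₁ + n * E₀) by linarith] at B₂'
    rw [f₀] at B₀
    rw [f₁] at B₁
    rw [f₂] at B₂
    rw [← e12] at B₀ B₀'
    rw [← e02] at B₁ B₁'
    rw [← e01] at B₂ B₂'
    clear_value E₀ E₁ E₂ c
    clear f₀ f₁ f₂ hdet hxy ht₁ ht₂
    -- case analysis on signs
    have cast_ge : ∀ k : ℤ, 0 < k → (1 : ℝ) ≤ k := fun k hk => by exact_mod_cast hk
    have cast_le : ∀ k : ℤ, k < 0 → (k : ℝ) ≤ -1 := fun k hk => by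
      have : k ≤ -1 := by omega
      exact_mod_cast this
    rcases lt_trichotomy m 0 with hm | hm | hm <;> rcases lt_trichotomy n 0 with hn | hn | hn
    · have h1 := cast_le m hm
      have h2 := cast_le n hn
      have h3 := mul_le_mul_of_nonneg_right h1 E₁0
      have h4 := mul_le_mul_of_nonneg_right h2 E₀0
      linarith
    · have h1 := cast_le m hm
      have h3 := mul_le_mul_of_nonneg_right h1 (add_nonneg E₁0 E₂0)
      rw [hn] at B₀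
      push_cast at B₀
      linarith
    · have h1 := cast_le m hm
      have h2 := cast_ge n hn
      have h3 := mul_le_mul_of_nonneg_right h1 (add_nonneg E₁0 E₂0)
      have h4 := mul_nonneg (show (0 : ℝ) ≤ n by linarith) E₂0
      linarith
    · have h2 := cast_le n hn
      have h3 := mul_le_mul_of_nonneg_right h2 (add_nonneg E₂0 E₀0)
      rw [hm] at B₁
      push_cast at B₁
      linarith
    · rcases hmn with h | h
      · exact h hm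
      · exact h hn
    · have h2 := cast_ge n hn
      have h3 := mul_le_mul_of_nonneg_right h2 (add_nonneg E₂0 E₀0)
      rw [hm] at B₁'
      push_cast at B₁'
      linarith
    · have h1 := cast_ge m hm
      have h2 := cast_le n hn
      have h3 := mul_le_mul_of_nonneg_right h1 (add_nonneg E₁0 E₂0)
      have h4 := mul_nonneg (show (0 : ℝ) ≤ -n by linarith) E₂0
      linarith
    · have h1 := cast_ge m hm
      have h3 := mul_le_mul_of_nonneg_right h1 (add_nonneg E₁0 E₂0)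
      rw [hn] at B₀'
      push_cast at B₀'
      linarith
    · have h1 := cast_ge m hm
      have h2 := cast_ge n hn
      have h3 := mul_le_mul_of_nonneg_right h1 E₁0
      have h4 := mul_le_mul_of_nonneg_right h2 E₀0
      linarith

end Pool.Agent.Helper63.ML
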